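import Pool.Agent.H92.Robin

set_option autoImplicit false
open MeasureTheory
open scoped ContDiff

namespace Pool.Agent.Results.MP_ce9a4f_an.NoBoundState

/-- the domain above the graph of `f` in `ℝ^d × ℝ` -/
def dom {d : ℕ} (f : (Fin d → ℝ) → ℝ) : Set ((Fin d → ℝ) × ℝ) := {p | f p.1 < p.2}

/-- `|∇u|²` (Euclidean) -/
noncomputable def gradSq {d : ℕ} (u : (Fin d → ℝ) × ℝ → ℂ) (p : (Fin d → ℝ) × ℝ) : ℝ :=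
  ∑ i, ‖fderiv ℝ u p (Pi.single i 1, 0)‖ ^ 2 + ‖fderiv ℝ u p (0, 1)‖ ^ 2

/-- `∫_{∂Ω} |u|² dσ`, the surface measure of the graph being `√(1 + |∇f|²) dx` -/
noncomputable def bdry {d : ℕ} (f : (Fin d → ℝ) → ℝ) (u : (Fin d → ℝ) × ℝ → ℂ) : ℝ :=
  ∫ x, ‖u (x, f x)‖ ^ 2 * √(1 + ∑ i, fderiv ℝ f x (Pi.single i 1) ^ 2)

/-- the Robin form `q_α[u]` -/
noncomputable def q {d : ℕ} (α : ℝ) (f : (Fin d → ℝ) → ℝ) (u : (Fin d → ℝ) × ℝ → ℂ) : ℝ :=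
  (∫ p in dom f, gradSq u p) + α * bdry f u

theorem result : ∀ d : ℕ, 3 ≤ d → ∀ α : ℝ, α < 0 → ∃ f : (Fin d → ℝ) → ℝ,
    ContDiff ℝ ∞ f ∧ HasCompactSupport f ∧ f ≠ 0 ∧
    ∀ u : (Fin d → ℝ) × ℝ → ℂ, ContDiff ℝ 1 u → HasCompactSupport u →
      -α ^ 2 * ∫ p in dom f, ‖u p‖ ^ 2 ≤ q α f u := by
  intro d hd α hα
  obtain ⟨f, f1, f2, f3, f4⟩ := Pool.Agent.H92.Robin.bump (d := d) (neg_pos.2 hα)
  refine ⟨f, f1, f2, f3, fun u h1 h2 => ?_⟩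
  have := Pool.Agent.H92.Robin.main hd f1 f4 h1 h2
  unfold q bdry gradSq dom
  linarith

end Pool.Agent.Results.MP_ce9a4f_an.NoBoundState
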